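import Pool.Agent.Lib.MP_95ac01_nt.Iface

/-!
# MP_95ac01_nt, module POS: a positive proportion of the forms has a rational zero
-/

set_option autoImplicit false

namespace H80

open Cub Finset Filter

noncomputable section

open Classical in
/-- the first moment -/
theorem sum_first (A B H : ℕ) :
    ∑ c ∈ box H, (Nf A B c : ℝ) = ∑ x ∈ G A B, (n1 x 0 H : ℝ) := by
  have h2 : ∀ c : Mon → ℤ, (Nf A B c : ℝ) = ∑ x ∈ G A B, (if ev c x = 0 then (1 : ℝ) else 0) := by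
    intro c
    unfold Nf
    rw [Finset.card_filter]; push_cast; rfl
  simp only [h2]
  rw [Finset.sum_comm]
  refine Finset.sum_congr rfl fun x _ => ?_
  unfold n1
  rw [Finset.card_filter]; push_cast; rfl

theorem ratZ_of_Nf {A B : ℕ} {c : Mon → ℤ} (h : Nf A B c ≠ 0) : RatZ c := by
  classical
  unfold Nf at h
  obtain ⟨x, hx⟩ := Finset.card_ne_zero.1 h
  rw [Finset.mem_filter] at hx
  refine ⟨cx ℚ x, ?_, ?_⟩
  · intro h0
    have hp := prim_ne_zero (mem_shell.1 (mem_G.1 hx.1).1).2.1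
    refine hp (funext fun i => ?_)
    have := congrFun h0 i
    simpa [cx] using this
  · rw [ev_cast, hx.2]; simp

/-- lower bound for the number of points of the shell -/
theorem card_shell (hR : RegionStatement) :
    ∃ c : ℝ, 0 < c ∧ ∃ B₀ : ℕ, ∀ B : ℕ, B₀ ≤ B → c * (B : ℝ) ^ 4 ≤ ((shell B).card : ℝ) := by
  classical
  obtain ⟨c₂, hc₂, h⟩ := hR 1 one_pos
  obtain ⟨B₀, hB₀⟩ := h 1 one_pos le_rfl 1 le_rfl
  refine ⟨c₂, hc₂, B₀, fun B hB => ?_⟩
  have h1 := hB₀ B hB (Pi.single (mon3 0 0 1) 1) (Pi.single 0 1) 0 ?_ ?_ ?_ ?_ ?_ ?_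
  · have h2 : c₂ * 1 * ((B : ℝ) / (1 : ℕ)) ^ 4 = c₂ * (B : ℝ) ^ 4 := by simp
    rw [h2] at h1
    refine h1.trans ?_
    exact_mod_cast Finset.card_filter_le _ _
  · intro m
    by_cases hm : m = mon3 0 0 1
    · subst hm; simp
    · rw [Pi.single_eq_of_ne hm]; simp
  · intro i
    by_cases hi : i = 0
    · subst hi; simp
    · rw [Pi.single_eq_of_ne hi]; simp
  · exact ⟨0, by simp⟩
  · rw [ev_single, mv_mon3]; simp
  · refine ⟨1, ?_⟩
    have h3 : pd (Pi.single (mon3 0 0 1) (1 : ℝ)) 1 (Pi.single 0 1 : Fin 4 → ℝ) = 1 := by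
      have h4 := lin_deriv_self (Pi.single (mon3 0 0 1) (1 : ℝ)) 1 (Pi.single 0 1 : Fin 4 → ℝ)
      have h5 := hasDerivAt_ev (Pi.single (mon3 0 0 1) (1 : ℝ)) 1 (Pi.single 0 1 : Fin 4 → ℝ)
        ((Pi.single 0 1 : Fin 4 → ℝ) 1)
      rw [Function.update_eq_self] at h5
      have h6 : (fun t : ℝ => ev (Pi.single (mon3 0 0 1) (1 : ℝ))
          (Function.update (Pi.single 0 1 : Fin 4 → ℝ) 1 t)) = fun t => t := by
        funext t
        rw [ev_single, mv_mon3]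
        simp
      rw [h6] at h5
      exact h5.unique (hasDerivAt_id _)
    rw [h3]; simp
  · exact ⟨0, by simp⟩

theorem pos (hS : SecMomStatement) (hN : N1LowStatement) (hR : RegionStatement)
    (hBad : BadAsyStatement) (hAsy : AsyStatement) : PosStatement := by
  classical
  obtain ⟨C, hC⟩ := hS
  obtain ⟨c, hc, B₀, hsh⟩ := card_shell hR
  obtain ⟨-, hB, hA2, hHB, hAB, -, -, -⟩ := hAsy
  have hBad' : ∀ᶠ H : ℕ in atTop, ((badSet (Af H) (Bf H)).card : ℝ) / (Bf H : ℝ) ^ 4 < c / 2 :=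
    hBad.eventually (gt_mem_nhds (by positivity))
  have hA2' : ∀ᶠ H : ℕ in atTop, (Af H : ℝ) ^ 2 / H < 1 / (C + 1) :=
    hA2.eventually (gt_mem_nhds (by positivity))
  have hHB' : ∀ᶠ H : ℕ in atTop, (H : ℝ) / Bf H < 1 := hHB.eventually (gt_mem_nhds one_pos)
  have hAB' : ∀ᶠ H : ℕ in atTop, (Af H : ℝ) ^ 3 / (Bf H : ℝ) ^ 2 < 1 :=
    hAB.eventually (gt_mem_nhds one_pos)
  have hBB : ∀ᶠ H : ℕ in atTop, ((B₀ + 1 : ℕ) : ℝ) ≤ (Bf H : ℝ) := hB.eventually_ge_atTop _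
  refine ⟨(c / 42) ^ 2 / (3 * (C + 1)) / 3 ^ 20, by positivity, ?_⟩
  filter_upwards [hBad', hA2', hHB', hAB', hBB, eventually_ge_atTop 1] with H h1 h2 h3 h4 h5 h6
  set A := Af H
  set B := Bf H
  have hB1 : B₀ + 1 ≤ B := by exact_mod_cast h5
  have hBpos : (0 : ℝ) < B := by
    have : 0 < B := by omega
    exact_mod_cast this
  have hHpos : (0 : ℝ) < H := by exact_mod_cast h6
  have hH1 : (1 : ℝ) ≤ H := by exact_mod_cast h6
  have hC0 : (0 : ℝ) ≤ C := Nat.cast_nonneg _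
  -- number of good points
  have hG : c / 2 * (B : ℝ) ^ 4 ≤ ((G A B).card : ℝ) := by
    have e1 : ((G A B).card : ℝ) + ((badSet A B).card : ℝ) = ((shell B).card : ℝ) := by
      unfold G badSet
      exact_mod_cast Finset.card_filter_add_card_filter_not (s := shell B) (Good A)
    have e2 := hsh B (by omega)
    have e3 : ((badSet A B).card : ℝ) ≤ c / 2 * (B : ℝ) ^ 4 := by
      rw [div_lt_iff₀ (by positivity)] at h1
      exact h1.le
    linarith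
  -- first moment
  have hfirst : (c / 42) * (B : ℝ) * (H : ℝ) ^ 19 ≤ ∑ f ∈ box H, (Nf A B f : ℝ) := by
    rw [sum_first]
    have e1 : ∀ x ∈ G A B, (H : ℝ) ^ 19 / (21 * (B : ℝ) ^ 3) ≤ (n1 x 0 H : ℝ) := by
      intro x hx
      rw [div_le_iff₀ (by positivity)]
      have := hN B H x (by omega) h6 (mem_shell.1 (mem_G.1 hx).1).1
      have e : ((H ^ 19 : ℕ) : ℝ) ≤ ((21 * B ^ 3 * n1 x 0 H : ℕ) : ℝ) := by exact_mod_cast this
      push_cast at e
      linarith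
    have e2 := Finset.sum_le_sum e1
    rw [Finset.sum_const, nsmul_eq_mul] at e2
    refine le_trans ?_ e2
    refine le_trans (le_of_eq ?_) (mul_le_mul_of_nonneg_right hG (by positivity))
    field_simp
    ring
  -- second moment
  have hsecond : ∑ f ∈ box H, (Nf A B f : ℝ) ^ 2 ≤ 3 * (C + 1) * (H : ℝ) ^ 18 * (B : ℝ) ^ 2 := by
    have e1 : C * A ^ 2 ≤ H := by
      rw [div_lt_div_iff₀ hHpos (by positivity)] at h2
      have e3 : (C : ℝ) * (A : ℝ) ^ 2 ≤ H := by nlinarith [sq_nonneg (A : ℝ)]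
      exact_mod_cast e3
    refine (hC A B H e1).trans ?_
    have e4 : 1 + (A : ℝ) ^ 3 / (B : ℝ) ^ 2 + H / B ≤ 3 := by linarith
    calc (C : ℝ) * (H : ℝ) ^ 18 * (B : ℝ) ^ 2 * (1 + (A : ℝ) ^ 3 / (B : ℝ) ^ 2 + H / B)
        ≤ (C : ℝ) * (H : ℝ) ^ 18 * (B : ℝ) ^ 2 * 3 :=
          mul_le_mul_of_nonneg_left e4 (by positivity)
      _ ≤ _ := by
          have : 0 ≤ (H : ℝ) ^ 18 * (B : ℝ) ^ 2 := by positivity
          nlinarith
  -- Cauchy-Schwarz
  have hcs : (∑ f ∈ box H, (Nf A B f : ℝ)) ^ 2 ≤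
      ((ratSet H).card : ℝ) * ∑ f ∈ box H, (Nf A B f : ℝ) ^ 2 := by
    have e1 : ∑ f ∈ box H, (Nf A B f : ℝ) = ∑ f ∈ ratSet H, (Nf A B f : ℝ) := by
      unfold ratSet
      rw [Finset.sum_filter]
      refine Finset.sum_congr rfl fun f _ => ?_
      split_ifs with h
      · rfl
      · by_contra h0
        refine h (ratZ_of_Nf (A := A) (B := B) ?_)
        intro h7
        rw [h7] at h0
        simp at h0
    rw [e1]
    refine (sq_sum_le_card_mul_sum_sq (s := ratSet H) (f := fun f => (Nf A B f : ℝ))).trans ?_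
    refine mul_le_mul_of_nonneg_left ?_ (Nat.cast_nonneg _)
    exact Finset.sum_le_sum_of_subset_of_nonneg (Finset.filter_subset _ _)
      fun _ _ _ => sq_nonneg _
  have h7 : ((c / 42) * (B : ℝ) * (H : ℝ) ^ 19) ^ 2 ≤
      ((ratSet H).card : ℝ) * (3 * (C + 1) * (H : ℝ) ^ 18 * (B : ℝ) ^ 2) :=
    ((pow_le_pow_left₀ (by positivity) hfirst 2).trans hcs).trans
      (mul_le_mul_of_nonneg_left hsecond (Nat.cast_nonneg _))
  have h8 : (c / 42) ^ 2 / (3 * (C + 1)) * (H : ℝ) ^ 20 ≤ ((ratSet H).card : ℝ) := by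
    have e1 : ((c / 42) ^ 2 / (3 * (C + 1)) * (H : ℝ) ^ 20) *
        (3 * (C + 1) * (H : ℝ) ^ 18 * (B : ℝ) ^ 2) = ((c / 42) * (B : ℝ) * (H : ℝ) ^ 19) ^ 2 := by
      field_simp
    have e2 : (0 : ℝ) < 3 * (C + 1) * (H : ℝ) ^ 18 * (B : ℝ) ^ 2 := by positivity
    rw [← e1] at h7
    exact le_of_mul_le_mul_right h7 e2
  have h9 : (2 * (H : ℝ) + 1) ^ 20 ≤ 3 ^ 20 * (H : ℝ) ^ 20 := by
    rw [← mul_pow]
    exact pow_le_pow_left₀ (by positivity) (by linarith) 20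
  calc (c / 42) ^ 2 / (3 * (C + 1)) / 3 ^ 20 * (2 * (H : ℝ) + 1) ^ 20
      ≤ (c / 42) ^ 2 / (3 * (C + 1)) / 3 ^ 20 * (3 ^ 20 * (H : ℝ) ^ 20) :=
        mul_le_mul_of_nonneg_left h9 (by positivity)
    _ = (c / 42) ^ 2 / (3 * (C + 1)) * (H : ℝ) ^ 20 := by field_simp
    _ ≤ _ := h8

end

end H80
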