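import Pool.Agent.Lib.MP_95ac01_nt.Iface

/-!
# MP_95ac01_nt, module SECMOM: the second moment of `Nf`
-/

set_option autoImplicit false

namespace H80

open Cub Finset Filter

noncomputable section

open Classical in
/-- expansion of the square -/
theorem sum_sq (A B H : ℕ) :
    ∑ c ∈ box H, (Nf A B c : ℝ) ^ 2 = ∑ x ∈ G A B, ∑ y ∈ G A B, (n2 x y 0 0 H : ℝ) := by
  have h1 : ∀ c : Mon → ℤ, (Nf A B c : ℝ) ^ 2 =
      ∑ x ∈ G A B, ∑ y ∈ G A B, (if ev c x = 0 ∧ ev c y = 0 then (1 : ℝ) else 0) := by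
    intro c
    have h2 : (Nf A B c : ℝ) = ∑ x ∈ G A B, (if ev c x = 0 then (1 : ℝ) else 0) := by
      unfold Nf
      rw [Finset.card_filter]; push_cast; rfl
    rw [h2, sq, Finset.sum_mul_sum]
    refine Finset.sum_congr rfl fun x _ => Finset.sum_congr rfl fun y _ => ?_
    by_cases hx : ev c x = 0 <;> by_cases hy : ev c y = 0 <;> simp [hx, hy]
  simp only [h1]
  rw [Finset.sum_comm]
  refine Finset.sum_congr rfl fun x _ => ?_
  rw [Finset.sum_comm]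
  refine Finset.sum_congr rfl fun y _ => ?_
  unfold n2
  rw [Finset.card_filter]; push_cast; rfl

theorem card_G_le (A B : ℕ) (hB : 1 ≤ B) : ((G A B).card : ℝ) ≤ 81 * (B : ℝ) ^ 4 := by
  have h1 : (G A B).card ≤ (cube B).card := by
    refine Finset.card_le_card fun x hx => ?_
    exact mem_cube.2 (mem_shell.1 (mem_G.1 hx).1).1
  rw [card_cube] at h1
  have h2 : (2 * B + 1) ^ 4 ≤ (3 * B) ^ 4 := Nat.pow_le_pow_left (by omega) 4
  have h3 : ((G A B).card : ℝ) ≤ ((3 * B : ℕ) : ℝ) ^ 4 := by exact_mod_cast h1.trans h2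
  push_cast at h3
  nlinarith [h3]

theorem secmom (hU1 : Upper1Statement) (hU2 : Upper2Statement) (hP : PairSumStatement) :
    SecMomStatement := by
  classical
  obtain ⟨C1, h1⟩ := hU1
  obtain ⟨C2, h2⟩ := hU2
  obtain ⟨C3, hC3, h3⟩ := hP
  obtain ⟨C, hC⟩ := exists_nat_ge (81 * (2 * (C1 : ℝ) + 2 * (C2 : ℝ) * C3) + C1 + C2)
  refine ⟨C, fun A B H hA => ?_⟩
  have hC1 : (C1 : ℝ) ≤ C := by
    have : 0 ≤ (C1 : ℝ) := Nat.cast_nonneg _
    have : 0 ≤ (C2 : ℝ) * C3 := by positivity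
    have : 0 ≤ (C2 : ℝ) := Nat.cast_nonneg _
    linarith
  have hC2 : (C2 : ℝ) ≤ C := by
    have : 0 ≤ (C1 : ℝ) := Nat.cast_nonneg _
    have : 0 ≤ (C2 : ℝ) * C3 := by positivity
    have : 0 ≤ (C2 : ℝ) := Nat.cast_nonneg _
    linarith
  have hA1 : C1 * A ^ 2 ≤ H := (Nat.mul_le_mul_right _ (by exact_mod_cast hC1)).trans hA
  have hA2 : C2 * A ^ 2 ≤ H := (Nat.mul_le_mul_right _ (by exact_mod_cast hC2)).trans hA
  rw [sum_sq]
  rcases Nat.eq_zero_or_pos B with hB | hB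
  · subst hB
    have hG : G A 0 = ∅ := by
      ext x
      simp only [mem_G, mem_shell, Finset.notMem_empty, iff_false]
      rintro ⟨⟨h, -, i, hi⟩, -⟩
      have := h i
      push_cast at this hi
      linarith
    rw [hG]; simp
  have hB' : (1 : ℝ) ≤ B := by exact_mod_cast hB
  have hB0 : (0 : ℝ) < B := by linarith
  -- the diagonal part
  have hdiag : ∀ x ∈ G A B, ∑ y ∈ (G A B).filter (fun y => wd x y = 0), (n2 x y 0 0 H : ℝ) ≤
      2 * (C1 * (H : ℝ) ^ 19 / (B : ℝ) ^ 3) := by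
    intro x hx
    have hpx : Prim x := (mem_shell.1 (mem_G.1 hx).1).2.1
    have hn1 : (n1 x 0 H : ℝ) ≤ C1 * (H : ℝ) ^ 19 / (B : ℝ) ^ 3 := by
      rw [le_div_iff₀ (by positivity)]
      exact_mod_cast h1 A B H x hx hA1 0
    have hsub : (G A B).filter (fun y => wd x y = 0) ⊆ {x, -x} := by
      intro y hy
      rw [Finset.mem_filter] at hy
      have hpy : Prim y := (mem_shell.1 (mem_G.1 hy.1).1).2.1
      rcases prim_parallel hpx hpy hy.2 with h | h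
      · simp [h]
      · simp [h]
    have hn2 : ∀ y, (n2 x y 0 0 H : ℝ) ≤ n1 x 0 H := by
      intro y
      have : n2 x y 0 0 H ≤ n1 x 0 H := by
        unfold n2 n1
        refine Finset.card_le_card fun c hc => ?_
        rw [Finset.mem_filter] at hc ⊢
        exact ⟨hc.1, hc.2.1⟩
      exact_mod_cast this
    calc ∑ y ∈ (G A B).filter (fun y => wd x y = 0), (n2 x y 0 0 H : ℝ)
        ≤ ∑ y ∈ ({x, -x} : Finset (Fin 4 → ℤ)), (n2 x y 0 0 H : ℝ) :=
          Finset.sum_le_sum_of_subset_of_nonneg hsub fun _ _ _ => Nat.cast_nonneg _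
      _ ≤ ∑ _y ∈ ({x, -x} : Finset (Fin 4 → ℤ)), (C1 * (H : ℝ) ^ 19 / (B : ℝ) ^ 3) :=
          Finset.sum_le_sum fun y _ => (hn2 y).trans hn1
      _ ≤ 2 * (C1 * (H : ℝ) ^ 19 / (B : ℝ) ^ 3) := by
          rw [Finset.sum_const, nsmul_eq_mul]
          have : (({x, -x} : Finset (Fin 4 → ℤ)).card : ℝ) ≤ 2 := by
            exact_mod_cast Finset.card_le_two
          exact mul_le_mul_of_nonneg_right this (by positivity)
  -- the off-diagonal part
  have hoff : ∀ x ∈ G A B, ∑ y ∈ (G A B).filter (fun y => ¬ wd x y = 0), (n2 x y 0 0 H : ℝ) ≤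
      C2 * (H : ℝ) ^ 18 / (B : ℝ) ^ 4 * (C3 * ((A : ℝ) ^ 3 + 2 * (B : ℝ) ^ 2)) := by
    intro x hx
    have hx4 := (mem_shell.1 (mem_G.1 hx).1).1
    have h4 := h3 A B x hx (2 * B ^ 2)
    have hset : (G A B).filter (fun y => ¬ wd x y = 0) =
        (G A B).filter (fun y => 0 < wd x y ∧ wd x y ≤ (2 * B ^ 2) * gd x y) := by
      refine Finset.filter_congr fun y hy => ?_
      have hy4 := (mem_shell.1 (mem_G.1 hy).1).1
      constructor
      · intro h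
        have h5 : 0 < wd x y := Nat.pos_of_ne_zero h
        have h6 : 0 < gd x y := (gd_pos_iff x y).2 h5
        refine ⟨h5, (wd_le_two_mul hx4 hy4).trans ?_⟩
        exact Nat.le_mul_of_pos_right _ h6
      · intro h; omega
    rw [hset]
    push_cast at h4
    refine le_trans ?_ (mul_le_mul_of_nonneg_left h4 (by positivity))
    rw [Finset.mul_sum]
    refine Finset.sum_le_sum fun y hy => ?_
    rw [Finset.mem_filter] at hy
    have h7 := h2 A B H x y hx hy.1 hy.2.1 hA2 0 0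
    have h8 : (0 : ℝ) < wd x y := by exact_mod_cast hy.2.1
    have h9 : (n2 x y 0 0 H : ℝ) * ((B : ℝ) ^ 4 * wd x y) ≤ C2 * (H : ℝ) ^ 18 * gd x y := by
      exact_mod_cast h7
    rw [div_mul_div_comm, le_div_iff₀ (by positivity)]
    exact h9
  -- the sum
  have hx : ∀ x ∈ G A B, ∑ y ∈ G A B, (n2 x y 0 0 H : ℝ) ≤
      2 * (C1 * (H : ℝ) ^ 19 / (B : ℝ) ^ 3) +
      C2 * (H : ℝ) ^ 18 / (B : ℝ) ^ 4 * (C3 * ((A : ℝ) ^ 3 + 2 * (B : ℝ) ^ 2)) := by
    intro x hx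
    rw [← Finset.sum_filter_add_sum_filter_not (G A B) (fun y => wd x y = 0)]
    exact add_le_add (hdiag x hx) (hoff x hx)
  refine (Finset.sum_le_sum hx).trans ?_
  rw [Finset.sum_const, nsmul_eq_mul]
  refine (mul_le_mul_of_nonneg_right (card_G_le A B hB) (by positivity)).trans ?_
  have e1 : 81 * (B : ℝ) ^ 4 * (2 * (C1 * (H : ℝ) ^ 19 / (B : ℝ) ^ 3) +
      C2 * (H : ℝ) ^ 18 / (B : ℝ) ^ 4 * (C3 * ((A : ℝ) ^ 3 + 2 * (B : ℝ) ^ 2))) =
      (H : ℝ) ^ 18 * (B : ℝ) ^ 2 * ((81 * (2 * C1)) * (H / B) +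
        (81 * (C2 * C3)) * ((A : ℝ) ^ 3 / (B : ℝ) ^ 2) + (81 * (2 * (C2 * C3))) * 1) := by
    field_simp
    ring
  rw [e1]
  have e2 : (C : ℝ) * (H : ℝ) ^ 18 * (B : ℝ) ^ 2 * (1 + (A : ℝ) ^ 3 / (B : ℝ) ^ 2 + H / B) =
      (H : ℝ) ^ 18 * (B : ℝ) ^ 2 * (C * (H / B) + C * ((A : ℝ) ^ 3 / (B : ℝ) ^ 2) + C * 1) := by
    ring
  rw [e2]
  have p1 : 0 ≤ (C1 : ℝ) := Nat.cast_nonneg _
  have p2 : 0 ≤ (C2 : ℝ) := Nat.cast_nonneg _
  have p3 : 0 ≤ (C2 : ℝ) * C3 := by positivity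
  refine mul_le_mul_of_nonneg_left ?_ (by positivity)
  refine add_le_add (add_le_add ?_ ?_) ?_
  · exact mul_le_mul_of_nonneg_right (by linarith) (by positivity)
  · exact mul_le_mul_of_nonneg_right (by linarith) (by positivity)
  · exact mul_le_mul_of_nonneg_right (by linarith) (by positivity)

end

end H80
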